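import Pool.Agent.V11300.G6.All
import Pool.Agent.V11300.G6.Twin

/-!
# Wolf's formula for generalized Brun constants fails for `h = 6`

The sum of `1 / p + 1 / (p + 6)` over the consecutive primes `p, p + 6` below `3.2 * 10 ^ 8` is already larger than
the value given by the formula.
-/

set_option autoImplicit false

namespace Pool.Agent.Results.MP_a19cb6_nt.GapSixSum

open Pool.Agent.V11300

/-- It is false that for all even `h ≥ 6` the sum of `1 / p + 1 / (p + h)` over all `p` such that `p` and `p + h` are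
consecutive primes equals `4 C / h` times the product of `(q - 1) / (q - 2)` over the odd primes `q` dividing `h`, where
`C` is the product of `1 - 1 / (q - 1) ^ 2` over all odd primes `q`. -/
theorem result : ¬ ∀ h : ℕ, 6 ≤ h → Even h →
    HasSum (fun p : {p : ℕ // p.Prime ∧ (p + h).Prime ∧ ∀ m : ℕ, p < m → m < p + h → ¬ m.Prime} =>
        1 / ((p : ℕ) : ℝ) + 1 / (((p : ℕ) : ℝ) + h))
      (4 * (∏' q : {q : ℕ // q.Prime ∧ 2 < q}, (1 - 1 / ((q : ℕ) - 1 : ℝ) ^ 2)) / h *
        ∏ q ∈ h.primeFactors.filter (fun q => 2 < q), (((q : ℝ) - 1) / ((q : ℝ) - 2))) := by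
  intro hall
  have h6 := hall 6 le_rfl (by decide)
  have hprod : ∏ q ∈ (6 : ℕ).primeFactors.filter (fun q => 2 < q), (((q : ℝ) - 1) / ((q : ℝ) - 2)) = 2 := by
    have e : (6 : ℕ).primeFactors.filter (fun q => 2 < q) = {3} := by decide +kernel
    rw [e, Finset.prod_singleton]
    norm_num
  rw [hprod] at h6
  have hC := G6.twin_le
  set C := (∏' q : {q : ℕ // q.Prime ∧ 2 < q}, (1 - 1 / ((q : ℕ) - 1 : ℝ) ^ 2)) with hCdef
  have hsum : HasSum KSW.g (4 * C / (6 : ℕ) * 2) := by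
    have h7 : HasSum (Set.indicator {p : ℕ | p.Prime ∧ (p + 6).Prime ∧ ∀ m : ℕ, p < m → m < p + 6 → ¬ m.Prime}
        (fun p : ℕ => 1 / (p : ℝ) + 1 / ((p : ℝ) + (6 : ℕ)))) (4 * C / (6 : ℕ) * 2) :=
      hasSum_subtype_iff_indicator.1 h6
    have e : KSW.g = Set.indicator {p : ℕ | p.Prime ∧ (p + 6).Prime ∧ ∀ m : ℕ, p < m → m < p + 6 → ¬ m.Prime}
        (fun p : ℕ => 1 / (p : ℝ) + 1 / ((p : ℝ) + (6 : ℕ))) := by
      funext p
      unfold KSW.g
      by_cases hp : KSW.Gap6 p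
      · rw [if_pos hp, Set.indicator_of_mem (show p ∈ {p : ℕ | p.Prime ∧ (p + 6).Prime ∧
          ∀ m : ℕ, p < m → m < p + 6 → ¬ m.Prime} from hp)]
        push_cast
        rfl
      · rw [if_neg hp, Set.indicator_of_notMem (show p ∉ {p : ℕ | p.Prime ∧ (p + 6).Prime ∧
          ∀ m : ℕ, p < m → m < p + 6 → ¬ m.Prime} from hp)]
    rw [e]
    exact h7
  have key : ∀ N : ℕ, ∑ n ∈ Finset.range N, KSW.G n ≤ 4 * C / (6 : ℕ) * 2 := by
    intro N
    have h8 : ∑ p ∈ Finset.range (6 * N), KSW.g p ≤ 4 * C / (6 : ℕ) * 2 :=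
      sum_le_hasSum _ (fun p _ => KSW.g_nonneg p) hsum
    refine le_trans ?_ h8
    rw [← KSW.sum_blocks KSW.g 6 N]
    apply Finset.sum_le_sum
    intro n _
    have h0 := KSW.g_nonneg (6 * n + 0)
    have h2 := KSW.g_nonneg (6 * n + 2)
    have h3 := KSW.g_nonneg (6 * n + 3)
    have h4 := KSW.g_nonneg (6 * n + 4)
    simp only [Finset.sum_range_succ, Finset.sum_range_zero]
    unfold KSW.G
    linarith
  have h9 := le_trans G6.s29 (key _)
  push_cast at h9
  linarith

end Pool.Agent.Results.MP_a19cb6_nt.GapSixSum
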